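import Pool.Agent.Helper38.IA.St

set_option autoImplicit false

namespace Pool.Agent.Helper38.IA38

open Finset Pool.Agent.Helper93.IA Pool.Agent.Helper38.IA

theorem hM1 : StM1 := by
  intro X Y _ _ _ _ G P Q r hP hPQ hr h1 h2
  classical
  -- neighbour sets
  let N : {x // x ∈ P} → Finset Y := fun x => Q.filter fun y => (x.1, y) ∈ G
  have hN : ∀ x : {x // x ∈ P}, Q.card ≤ (N x).card + r := by
    intro x
    have h := Finset.card_filter_add_card_filter_not (s := Q) (fun y => (x.1, y) ∈ G)
    have h' := h1 x.1 x.2
    simp only [N]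
    omega
  have hall : ∀ S : Finset {x // x ∈ P}, S.card ≤ (S.biUnion N).card := by
    intro S
    rcases S.eq_empty_or_nonempty with rfl | ⟨x0, hx0⟩
    · simp
    · have hSP : S.card ≤ P.card := by
        have := Finset.card_le_univ S
        simpa using this
      by_cases hS : S.card ≤ r
      · have h3 : (N x0).card ≤ (S.biUnion N).card :=
          Finset.card_le_card (Finset.subset_biUnion_of_mem N hx0)
        have h4 := hN x0
        omega
      · -- every y in Q has a neighbour in S
        have h5 : Q ⊆ S.biUnion N := by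
          intro y hy
          by_contra hcon
          have h6 : S.map (Function.Embedding.subtype _) ⊆ P.filter fun x => (x, y) ∉ G := by
            intro x hx
            rw [Finset.mem_map] at hx
            obtain ⟨z, hz, rfl⟩ := hx
            rw [Finset.mem_filter]
            refine ⟨z.2, fun hG => hcon ?_⟩
            rw [Finset.mem_biUnion]
            exact ⟨z, hz, by simpa [N] using ⟨hy, hG⟩⟩
          have h7 := Finset.card_le_card h6
          rw [Finset.card_map] at h7
          have h8 := h2 y hy
          omega
        have h9 := Finset.card_le_card h5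
        omega
  obtain ⟨f, hf, hfN⟩ := (Finset.all_card_le_biUnion_card_iff_exists_injective N).1 hall
  have hfQ : ∀ x : {x // x ∈ P}, f x ∈ Q ∧ (x.1, f x) ∈ G := by
    intro x
    have := hfN x
    simpa [N] using this
  obtain ⟨p0, hp0⟩ := hP
  refine ⟨fun x => if h : x ∈ P then f ⟨x, h⟩ else f ⟨p0, hp0⟩, ?_, ?_⟩
  · have hmaps : Set.MapsTo (fun x => if h : x ∈ P then f ⟨x, h⟩ else f ⟨p0, hp0⟩)
        (P : Set X) (Q : Set Y) := by
      intro x hx
      have hx' : x ∈ P := hx
      simp only [hx', dif_pos]
      exact (hfQ ⟨x, hx'⟩).1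
    have hinj : Set.InjOn (fun x => if h : x ∈ P then f ⟨x, h⟩ else f ⟨p0, hp0⟩) (P : Set X) := by
      intro x hx y hy hxy
      have hx' : x ∈ P := hx
      have hy' : y ∈ P := hy
      simp only [hx', hy', dif_pos] at hxy
      have := hf hxy
      exact congrArg Subtype.val this
    refine ⟨hmaps, hinj, ?_⟩
    exact Finset.surjOn_of_injOn_of_card_le _ hmaps hinj hPQ.symm.le
  · intro x hx
    simp only [hx, dif_pos]
    exact (hfQ ⟨x, hx⟩).2

end Pool.Agent.Helper38.IA38
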